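import Pool.Agent.Results.MP_188a10_nt.WeightedExceptional
import Pool.Agent.Q93.EHC.Fin

/-! Weighted level of distribution along fixed residue systems: category. -/

set_option autoImplicit false

open Finset Filter

namespace Pool.Agent.Q93.WL

open Pool.Agent.H300R2.WEH
open Pool.Agent.Results.MP_188a10_nt.WeightedExceptional (EMax EOff nuD EMax_eq primesAP li log_ge_one
  nuD_le)

lemma EMax_nonneg (N d : ℕ) (l : (ZMod d)ˣ) : 0 ≤ EMax N d l :=
  Real.iSup_nonneg fun _ => abs_nonneg _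

lemma val_le (N d l : ℕ) (hd : 1 ≤ d) (y : ℝ) (hy2 : 2 ≤ y) (hyN : y ≤ N) :
    err y d l ≤ 2 * N := by
  have hφ : (1 : ℝ) ≤ Nat.totient d := by exact_mod_cast Nat.totient_pos.mpr (by omega)
  have hφ0 : (0 : ℝ) < Nat.totient d := by linarith
  have hn : ⌊y⌋₊ ≤ N := by
    have := Nat.floor_le_floor hyN
    rwa [Nat.floor_natCast] at this
  have hnr : ((⌊y⌋₊ : ℕ) : ℝ) ≤ N := by exact_mod_cast hn
  have hN0 : (0 : ℝ) ≤ N := Nat.cast_nonneg _
  have h1 : (piR y d l : ℝ) ≤ 2 * N := by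
    have hc : ((piR y d l : ℕ) : ℝ) ≤ ⌊y⌋₊ := by
      unfold piR
      exact_mod_cast (card_filter_le _ _).trans (by simp)
    linarith
  have h3 : 0 ≤ (∫ t in (2 : ℝ)..y, 1 / Real.log t) := by
    apply intervalIntegral.integral_nonneg hy2
    intro t ht
    have : 0 < Real.log t := Real.log_pos (by linarith [ht.1])
    positivity
  have h4 : (∫ t in (2 : ℝ)..y, 1 / Real.log t) ≤ 2 * N := by
    have h := intervalIntegral.norm_integral_le_of_norm_le_const (a := (2 : ℝ)) (b := y)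
      (f := fun t => 1 / Real.log t) (C := 2) (by
        intro t ht
        rw [Set.uIoc_of_le hy2] at ht
        have h3 : Real.log 2 ≤ Real.log t := Real.log_le_log (by norm_num) ht.1.le
        have := Real.log_two_gt_d9
        rw [Real.norm_eq_abs, abs_of_pos (by
          have : 0 < Real.log t := by linarith
          positivity), div_le_iff₀ (by linarith)]
        linarith)
    rw [Real.norm_eq_abs, abs_of_nonneg (by linarith : (0:ℝ) ≤ y - 2)] at h
    have := le_abs_self (∫ t in (2 : ℝ)..y, 1 / Real.log t)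
    linarith
  have h5 : (∫ t in (2 : ℝ)..y, 1 / Real.log t) / (Nat.totient d : ℝ) ≤ 2 * N :=
    (div_le_self h3 hφ).trans h4
  have h6 : 0 ≤ (∫ t in (2 : ℝ)..y, 1 / Real.log t) / (Nat.totient d : ℝ) := by positivity
  have h7 : (0 : ℝ) ≤ (piR y d l : ℝ) := Nat.cast_nonneg _
  unfold err
  rw [abs_le]
  constructor <;> linarith

lemma errMax_mono {N N' : ℕ} (h : N ≤ N') (d l : ℕ) (hd : 1 ≤ d) :
    errMax N d l ≤ errMax N' d l := by
  unfold errMax
  refine Real.iSup_le ?_ (errMax_nonneg N' d l)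
  rintro ⟨y, hy2, hyN⟩
  have hyN' : y ≤ N' := hyN.trans (by exact_mod_cast h)
  refine le_ciSup_of_le (f := fun y : Set.Icc (2 : ℝ) N' => err y d l) ?_ ⟨y, hy2, hyN'⟩ le_rfl
  refine ⟨2 * N', ?_⟩
  rintro _ ⟨⟨z, hz2, hzN⟩, rfl⟩
  exact val_le N' d l hd z hz2 hzN

lemma EMax_mono {N N' : ℕ} (h : N ≤ N') (k : ℕ) (l : (ZMod (k + 1))ˣ) :
    EMax N (k + 1) l ≤ EMax N' (k + 1) l := by
  rw [EMax_eq, EMax_eq]
  exact errMax_mono h _ _ (by omega)

lemma EMax_triv (N k : ℕ) (l : (ZMod (k + 1))ˣ) : EMax N (k + 1) l ≤ 2 * N := by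
  rw [EMax_eq]
  refine Real.iSup_le ?_ (by positivity)
  rintro ⟨y, hy2, hyN⟩
  exact val_le N _ _ (by omega) y hy2 hyN

lemma EMax_triv2 (N k : ℕ) (hN : 2 ≤ N) (hk : k + 1 ≤ N) (l : (ZMod (k + 1))ˣ) :
    EMax N (k + 1) l ≤ 2 * N / (Nat.totient (k + 1) : ℝ) := by
  rw [EMax_eq]
  exact errMax_triv N _ _ hN (by omega) hk

lemma EMax_off (N k : ℕ) (X : Finset (ZMod (k + 1))ˣ) (l : (ZMod (k + 1))ˣ) (hl : l ∉ X) :
    EMax N (k + 1) l ≤ EOff N (k + 1) X := by
  unfold EOff
  exact le_ciSup (f := fun l : {l : (ZMod (k + 1))ˣ // l ∉ X} => EMax N (k + 1) l)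
    (Set.finite_range _).bddAbove ⟨l, hl⟩

/-- a fixed number of moduli -/
theorem small (κ : ℝ) (hκ : 1 ≤ κ) (U K : ℕ) : ∃ C : ℝ, 0 ≤ C ∧ ∀ N : ℕ, 3 ≤ N →
    ∀ c : ∀ k : ℕ, (ZMod (k + 1))ˣ,
    ∑ k ∈ range K, κ ^ nuD (k + 1) * EMax N (k + 1) (c k) ≤ C * (N / Real.log N ^ U) := by
  obtain ⟨B, C, H⟩ := Pool.Agent.Results.MP_188a10_nt.WeightedExceptional.result κ hκ U
  have ev := Pool.Agent.H398R2.BV.ev_log (K + 1 : ℝ) B 1 one_pos
  obtain ⟨N1, hN1⟩ := eventually_atTop.1 ((tendsto_natCast_atTop_atTop (R := ℝ)).eventually ev)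
  obtain ⟨M, hM⟩ : ∃ M, M = N1 + 3 := ⟨_, rfl⟩
  have hlM := log_ge_one (x := M) (by omega)
  have hκ0 : 0 ≤ κ := by linarith
  refine ⟨|C| * (K + 1) + K * (κ ^ K * 2) * Real.log M ^ U, by positivity, fun N hN c => ?_⟩
  have hN0 : (0 : ℝ) < N := by exact_mod_cast (by omega : 0 < N)
  have hl1 := log_ge_one hN
  have hl0 : 0 < Real.log N := by linarith
  have hP : 0 < (N : ℝ) / Real.log N ^ U := by positivity
  rcases lt_or_ge N M with h | h
  · have h1 : ∑ k ∈ range K, κ ^ nuD (k + 1) * EMax N (k + 1) (c k) ≤ K * (κ ^ K * (2 * N)) := by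
      calc _ ≤ ∑ _k ∈ range K, κ ^ K * (2 * (N : ℝ)) := by
            refine sum_le_sum fun k hk => ?_
            rw [mem_range] at hk
            refine mul_le_mul (pow_le_pow_right₀ hκ (nuD_le _ _ (by omega)))
              (EMax_triv N k _) (EMax_nonneg _ _ _) (by positivity)
        _ = _ := by rw [sum_const, card_range, nsmul_eq_mul]
    have h2 : Real.log N ^ U ≤ Real.log M ^ U :=
      pow_le_pow_left₀ hl0.le (Real.log_le_log hN0 (by exact_mod_cast h.le)) U
    have h3 : (N : ℝ) ≤ Real.log M ^ U * (N / Real.log N ^ U) := by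
      rw [mul_div_assoc', le_div_iff₀ (by positivity), mul_comm]
      gcongr
    calc _ ≤ (K : ℝ) * (κ ^ K * (2 * N)) := h1
      _ = K * (κ ^ K * 2) * N := by ring
      _ ≤ K * (κ ^ K * 2) * (Real.log M ^ U * (N / Real.log N ^ U)) := by gcongr
      _ ≤ _ := by
        have : 0 ≤ |C| * (K + 1) * ((N : ℝ) / Real.log N ^ U) := by positivity
        linarith
  · have h1 := hN1 N (by omega)
    rw [Real.rpow_one] at h1
    have hlB : 1 ≤ Real.log N ^ B := one_le_pow₀ hl1
    have hK0 : (0 : ℝ) ≤ K := Nat.cast_nonneg K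
    have h2 := (H N hN).2 (K + 1) (by linarith) K (by
        rw [le_div_iff₀ (by positivity)]
        nlinarith) (by
        rw [le_div_iff₀ (by positivity)]
        nlinarith) (fun d => if h : d = 0 then ∅ else
          if d ≤ K then (haveI : NeZero d := ⟨h⟩; (univ : Finset (ZMod d)ˣ)) else ∅) (by
        intro d
        split_ifs with hd hdK
        · simp; positivity
        · haveI : NeZero d := ⟨hd⟩
          rw [card_univ, ZMod.card_units_eq_totient]
          have : (Nat.totient d : ℝ) ≤ K := by exact_mod_cast (Nat.totient_le d).trans hdK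
          linarith
        · simp; positivity)
    have h3 : ∑ k ∈ range K, κ ^ nuD (k + 1) * EMax N (k + 1) (c k) ≤
        ∑ d ∈ Icc 1 K, κ ^ nuD d * ∑ l ∈ (if h : d = 0 then ∅ else
          if d ≤ K then (haveI : NeZero d := ⟨h⟩; (univ : Finset (ZMod d)ˣ)) else ∅), EMax N d l := by
      rw [← Pool.Agent.Q93.EHC.sum_shift (fun d => κ ^ nuD d * ∑ l ∈ (if h : d = 0 then ∅ else
          if d ≤ K then (haveI : NeZero d := ⟨h⟩; (univ : Finset (ZMod d)ˣ)) else ∅), EMax N d l)]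
      refine sum_le_sum fun k hk => ?_
      rw [mem_range] at hk
      refine mul_le_mul_of_nonneg_left ?_ (by positivity)
      rw [dif_neg (by omega), if_pos (by omega)]
      exact single_le_sum (f := fun l => EMax N (k + 1) l) (fun l _ => EMax_nonneg _ _ _)
        (mem_univ (c k))
    have h4 : C * ((K + 1) * N / Real.log N ^ U) ≤ |C| * (K + 1) * (N / Real.log N ^ U) := by
      rw [mul_div_assoc, ← mul_assoc]
      have : C * (K + 1) ≤ |C| * (K + 1) := by gcongr; exact le_abs_self C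
      gcongr
    have h5 : 0 ≤ (K : ℝ) * (κ ^ K * 2) * Real.log M ^ U * (N / Real.log N ^ U) := by positivity
    linarith

section Cat

variable {Y : ℕ → Type} [∀ k, TopologicalSpace (Y k)] [∀ k, DiscreteTopology (Y k)]
  [∀ k, Finite (Y k)] [∀ k, Nonempty (Y k)] (ι : ∀ k, Y k → (ZMod (k + 1))ˣ) (κ : ℝ)
  (T : ℕ → Finset ℕ) (U : ℕ)

/-- the bound with the maximum over the classes -/
def MaxB : Prop := ∃ C : ℝ, ∀ N : ℕ, 3 ≤ N →
  ∑ k ∈ T N, κ ^ nuD (k + 1) * (⨆ a : Y k, EMax N (k + 1) (ι k a)) ≤ C * (N / Real.log N ^ U)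

/-- the bound along a fixed system -/
def SysB (y : ∀ k, Y k) : Prop := ∃ C : ℝ, ∀ N : ℕ, 3 ≤ N →
  ∑ k ∈ T N, κ ^ nuD (k + 1) * EMax N (k + 1) (ι k (y k)) ≤ C * (N / Real.log N ^ U)

variable {ι κ T U}

lemma le_max (N k : ℕ) (a : Y k) :
    EMax N (k + 1) (ι k a) ≤ ⨆ a : Y k, EMax N (k + 1) (ι k a) :=
  le_ciSup (f := fun a : Y k => EMax N (k + 1) (ι k a)) (Set.finite_range _).bddAbove a

lemma exists_max (N k : ℕ) : ∃ a : Y k, (⨆ a : Y k, EMax N (k + 1) (ι k a)) =
    EMax N (k + 1) (ι k a) := by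
  obtain ⟨a, ha⟩ := Finite.exists_max (fun a : Y k => EMax N (k + 1) (ι k a))
  exact ⟨a, le_antisymm (ciSup_le ha) (le_max N k a)⟩

lemma sysB_of_maxB (hκ : 0 ≤ κ) (h : MaxB ι κ T U) (y : ∀ k, Y k) : SysB ι κ T U y := by
  obtain ⟨C, hC⟩ := h
  refine ⟨C, fun N hN => (sum_le_sum fun k _ => ?_).trans (hC N hN)⟩
  exact mul_le_mul_of_nonneg_left (le_max N k _) (by positivity)

theorem meagre_of_not (hκ : 1 ≤ κ) (h : ¬ MaxB ι κ T U) : IsMeagre {y | SysB ι κ T U y} := by
  have hκ0 : 0 ≤ κ := by linarith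
  set F : ℕ → (∀ k, Y k) → ℝ := fun N y => if 3 ≤ N then
    (∑ k ∈ T N, κ ^ nuD (k + 1) * EMax N (k + 1) (ι k (y k))) / (N / Real.log N ^ U) else 0 with hF
  have hpos : ∀ N : ℕ, 3 ≤ N → 0 < (N : ℝ) / Real.log N ^ U := by
    intro N hN
    have h1 := log_ge_one hN
    have h2 : (0 : ℝ) < N := by exact_mod_cast (by omega : 0 < N)
    positivity
  have hcont : ∀ N, Continuous (F N) := by
    intro N
    simp only [hF]
    split_ifs with h3
    · refine Continuous.div_const (continuous_finsetSum _ fun k _ => ?_) _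
      exact continuous_const.mul (Pool.Agent.Q93.EHC.continuous_proj k
        (fun a => EMax N (k + 1) (ι k a)))
    · exact continuous_const
  refine (Pool.Agent.Q93.EHC.hump F hcont ?_).mono ?_
  · intro y0 K C
    obtain ⟨CK, hCK0, hCK⟩ := small κ hκ U K
    have h1 : ¬ ∀ N : ℕ, 3 ≤ N → ∑ k ∈ T N, κ ^ nuD (k + 1) *
        (⨆ a : Y k, EMax N (k + 1) (ι k a)) ≤ (C + CK) * (N / Real.log N ^ U) :=
      fun h2 => h ⟨_, h2⟩
    push Not at h1
    obtain ⟨N, hN, h2⟩ := h1
    choose m hm using fun k => exists_max (ι := ι) N k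
    refine ⟨fun k => if k < K then y0 k else m k, fun k hk => if_pos hk, N, ?_⟩
    simp only [hF, if_pos hN]
    rw [lt_div_iff₀ (hpos N hN)]
    have h3 : ∑ k ∈ T N, κ ^ nuD (k + 1) * (⨆ a : Y k, EMax N (k + 1) (ι k a)) ≤
        ∑ k ∈ T N, κ ^ nuD (k + 1) * EMax N (k + 1) (ι k (if k < K then y0 k else m k)) +
        ∑ k ∈ range K, κ ^ nuD (k + 1) * EMax N (k + 1) (ι k (m k)) := by
      calc _ ≤ ∑ k ∈ T N, (κ ^ nuD (k + 1) * EMax N (k + 1) (ι k (if k < K then y0 k else m k)) +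
            if k < K then κ ^ nuD (k + 1) * EMax N (k + 1) (ι k (m k)) else 0) := by
            refine sum_le_sum fun k _ => ?_
            rw [hm k]
            split_ifs with hk
            · have : 0 ≤ κ ^ nuD (k + 1) * EMax N (k + 1) (ι k (y0 k)) :=
                mul_nonneg (by positivity) (EMax_nonneg _ _ _)
              linarith
            · simp
        _ = ∑ k ∈ T N, κ ^ nuD (k + 1) * EMax N (k + 1) (ι k (if k < K then y0 k else m k)) +
            ∑ k ∈ (T N).filter (fun k => k < K), κ ^ nuD (k + 1) * EMax N (k + 1) (ι k (m k)) := by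
            rw [sum_add_distrib, sum_filter]
        _ ≤ _ := by
            refine add_le_add le_rfl (sum_le_sum_of_subset_of_nonneg ?_ fun k _ _ =>
              mul_nonneg (by positivity) (EMax_nonneg _ _ _))
            intro k hk
            rw [mem_filter] at hk
            exact mem_range.2 hk.2
    have h4 := hCK N hN (fun k => ι k (m k))
    have h5 : C * ((N : ℝ) / Real.log N ^ U) + CK * (N / Real.log N ^ U) =
      (C + CK) * (N / Real.log N ^ U) := by ring
    linarith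
  · rintro y ⟨C, hC⟩
    refine ⟨max C 0, fun N => ?_⟩
    simp only [hF]
    split_ifs with h3
    · rw [div_le_iff₀ (hpos N h3)]
      refine (hC N h3).trans ?_
      have := hpos N h3
      gcongr
      exact le_max_left _ _
    · exact le_max_right _ _

theorem cat (hκ : 1 ≤ κ) : MaxB ι κ T U ↔ ¬ IsMeagre {y | SysB ι κ T U y} :=
  ⟨fun h => Pool.Agent.Q93.EHC.univ_not_meagre (sysB_of_maxB (by linarith) h),
    fun h => by_contra fun hn => h (meagre_of_not hκ hn)⟩

end Cat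

end Pool.Agent.Q93.WL
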