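import Pool.Agent.Q93.WL.Core

/-! Weighted level of distribution along fixed residue systems: random systems. -/

set_option autoImplicit false

open Finset Filter MeasureTheory

namespace Pool.Agent.Q93.WL

open Pool.Agent.H300R2.WEH
open Pool.Agent.Results.MP_188a10_nt.WeightedExceptional (EMax EOff nuD EMax_eq log_ge_one)
open Pool.Agent.Q93.EHC (pr pr_nonneg sum_pr nn nn_spec le_nn sum_shift)

lemma tot_two_pow (d : ℕ) (hd : 1 ≤ d) : (d : ℝ) ≤ 2 ^ nuD d * (Nat.totient d : ℝ) := by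
  have h1 : (Nat.totient d : ℝ) = d * ∏ p ∈ d.primeFactors, (1 - (p : ℝ)⁻¹) := by
    have := Nat.totient_eq_mul_prod_factors d
    have h2 : ((Nat.totient d : ℚ) : ℝ) = ((d * ∏ p ∈ d.primeFactors, (1 - (p : ℚ)⁻¹) : ℚ) : ℝ) := by
      rw [this]
    push_cast at h2
    exact h2
  have h2 : (1 / 2 : ℝ) ^ d.primeFactors.card ≤ ∏ p ∈ d.primeFactors, (1 - (p : ℝ)⁻¹) := by
    rw [← prod_const]
    refine prod_le_prod (fun _ _ => by norm_num) fun p hp => ?_
    have hp2 : (2 : ℝ) ≤ p := by exact_mod_cast (Nat.prime_of_mem_primeFactors hp).two_le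
    have : (p : ℝ)⁻¹ ≤ 1 / 2 := by
      rw [inv_le_comm₀ (by linarith) (by norm_num)]
      linarith
    linarith
  have hd0 : (0 : ℝ) < d := by exact_mod_cast hd
  rw [h1]
  unfold nuD
  calc (d : ℝ) = 2 ^ d.primeFactors.card * (d * (1 / 2) ^ d.primeFactors.card) := by
        rw [mul_comm (d : ℝ), ← mul_assoc, ← mul_pow]
        norm_num
    _ ≤ _ := by gcongr

section

variable {Ω : Type*} [MeasurableSpace Ω] (μ : Measure Ω) [IsProbabilityMeasure μ]
  {c : ∀ k : ℕ, Ω → (ZMod (k + 1))ˣ}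

/-- the trivial bound for the moduli with classes in the exceptional sets -/
noncomputable def RX (c : ∀ k : ℕ, Ω → (ZMod (k + 1))ˣ) (κ : ℝ) (X : ∀ d : ℕ, Finset (ZMod d)ˣ)
    (N n : ℕ) (ω : Ω) : ℝ :=
  ∑ k ∈ range n, Set.indicator {ω | c k ω ∈ X (k + 1)}
    (fun _ => κ ^ nuD (k + 1) * (2 * N / (Nat.totient (k + 1) : ℝ))) ω

variable (hc : ∀ k (a : (ZMod (k + 1))ˣ), MeasurableSet {ω | c k ω = a})

include hc in
lemma meas_X (k : ℕ) (X : Finset (ZMod (k + 1))ˣ) : MeasurableSet {ω | c k ω ∈ X} := by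
  have e : {ω | c k ω ∈ X} = ⋃ a ∈ X, {ω | c k ω = a} := by
    ext ω; simp
  rw [e]
  exact MeasurableSet.biUnion X.countable_toSet fun a _ => hc k a

lemma prob_X (k : ℕ) (X : Finset (ZMod (k + 1))ˣ) :
    μ.real {ω | c k ω ∈ X} ^ 2 ≤ X.card * ∑ a, pr μ c k a ^ 2 := by
  have e : {ω | c k ω ∈ X} = ⋃ a ∈ X, {ω | c k ω = a} := by
    ext ω; simp
  have h1 : μ.real {ω | c k ω ∈ X} ≤ ∑ a ∈ X, pr μ c k a := by
    rw [e]
    exact measureReal_biUnion_finset_le _ _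
  calc μ.real {ω | c k ω ∈ X} ^ 2 ≤ (∑ a ∈ X, pr μ c k a) ^ 2 :=
        pow_le_pow_left₀ measureReal_nonneg h1 2
    _ ≤ X.card * ∑ a ∈ X, pr μ c k a ^ 2 := sq_sum_le_card_mul_sum_sq
    _ ≤ X.card * ∑ a, pr μ c k a ^ 2 := by
        gcongr
        exact subset_univ X

include hc in
lemma integrable_RX (κ : ℝ) (X : ∀ d : ℕ, Finset (ZMod d)ˣ) (N n : ℕ) :
    Integrable (RX c κ X N n) μ := by
  unfold RX
  exact integrable_finsetSum _ fun k _ => (integrable_const _).indicator (meas_X hc k _)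

include hc in
lemma integral_RX (κ : ℝ) (X : ∀ d : ℕ, Finset (ZMod d)ˣ) (N n : ℕ) :
    ∫ ω, RX c κ X N n ω ∂μ = ∑ k ∈ range n, μ.real {ω | c k ω ∈ X (k + 1)} *
      (κ ^ nuD (k + 1) * (2 * N / (Nat.totient (k + 1) : ℝ))) := by
  unfold RX
  rw [integral_finsetSum _ fun k _ => (integrable_const _).indicator (meas_X hc k _)]
  refine sum_congr rfl fun k _ => ?_
  rw [integral_indicator_const _ (meas_X hc k _), smul_eq_mul]

lemma RX_nonneg {κ : ℝ} (hκ : 0 ≤ κ) (X : ∀ d : ℕ, Finset (ZMod d)ˣ) (N n : ℕ) (ω : Ω) :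
    0 ≤ RX c κ X N n ω :=
  sum_nonneg fun k _ => Set.indicator_nonneg (fun _ _ => by positivity) _

/-- the sum of the errors -/
noncomputable def SW (c : ∀ k : ℕ, Ω → (ZMod (k + 1))ˣ) (κ : ℝ) (N n : ℕ) (ω : Ω) : ℝ :=
  ∑ k ∈ range n, κ ^ nuD (k + 1) * EMax N (k + 1) (c k ω)

lemma SW_le {κ : ℝ} (hκ : 0 ≤ κ) (X : ∀ d : ℕ, Finset (ZMod d)ˣ) (N n : ℕ) (hN : 2 ≤ N)
    (hn : n ≤ N) (ω : Ω) :
    SW c κ N n ω ≤ ∑ d ∈ Icc 1 N, κ ^ nuD d * EOff N d (X d) + RX c κ X N n ω := by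
  have hoff : ∀ d, 0 ≤ EOff N d (X d) := fun d => Real.iSup_nonneg fun _ => EMax_nonneg _ _ _
  have h1 : SW c κ N n ω ≤ ∑ k ∈ range n, κ ^ nuD (k + 1) * EOff N (k + 1) (X (k + 1)) +
      RX c κ X N n ω := by
    unfold SW RX
    rw [← sum_add_distrib]
    refine sum_le_sum fun k hk => ?_
    rw [mem_range] at hk
    by_cases h : c k ω ∈ X (k + 1)
    · rw [Set.indicator_of_mem (by exact h)]
      have h2 : κ ^ nuD (k + 1) * EMax N (k + 1) (c k ω) ≤
          κ ^ nuD (k + 1) * (2 * N / (Nat.totient (k + 1) : ℝ)) :=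
        mul_le_mul_of_nonneg_left (EMax_triv2 N k hN (by omega) _) (by positivity)
      have h3 : 0 ≤ κ ^ nuD (k + 1) * EOff N (k + 1) (X (k + 1)) :=
        mul_nonneg (by positivity) (hoff _)
      linarith
    · rw [Set.indicator_of_notMem (by exact h), add_zero]
      exact mul_le_mul_of_nonneg_left (EMax_off N k _ _ h) (by positivity)
  have h2 : ∑ k ∈ range n, κ ^ nuD (k + 1) * EOff N (k + 1) (X (k + 1)) ≤
      ∑ d ∈ Icc 1 N, κ ^ nuD d * EOff N d (X d) := by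
    rw [← sum_shift (fun d => κ ^ nuD d * EOff N d (X d)) N]
    exact sum_le_sum_of_subset_of_nonneg (range_subset_range.2 hn) fun k _ _ =>
      mul_nonneg (by positivity) (hoff _)
  linarith

include hc in
/-- the mean value of the exceptional part -/
theorem mean_RX (κ : ℝ) (hκ : 1 ≤ κ) (β K : ℝ) (D : ℕ) (hβ : 0 ≤ β) (hK : 0 ≤ K)
    (hcoll : ∀ n : ℕ, ∑ k ∈ range n, ∑ a, pr μ c k a ^ 2 ≤
      K * (n : ℝ) ^ β * Real.log (n + 2) ^ D) (B U : ℕ) :
    ∃ B' : ℕ, ∀ N : ℕ, 8 ≤ N → ∀ n : ℕ, n ≤ N → (n : ℝ) ^ (1 + β) * Real.log N ^ B' ≤ N →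
      ∀ X : ∀ d : ℕ, Finset (ZMod d)ˣ,
      (∀ d, 1 ≤ d → ((X d).card : ℝ) ≤ (d : ℝ) ^ 2 * Real.log N ^ B / N) →
      ∫ ω, RX c κ X N n ω ∂μ ≤ (2 * Real.sqrt (K * 3 ^ D)) * (N / Real.log N ^ U) := by
  obtain ⟨c', hc'⟩ := sum_log (2 * κ ^ 2) (by nlinarith)
  refine ⟨B + c' + D + 2 * U, fun N hN n hnN hn X hX => ?_⟩
  have hN0 : (0 : ℝ) < N := by exact_mod_cast (by omega : 0 < N)
  have hl1 := log_ge_one (x := N) (by omega)
  have hl0 : 0 < Real.log N := by linarith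
  have hκ0 : 0 ≤ κ := by linarith
  rw [integral_RX μ hc]
  have hn0 : (0 : ℝ) ≤ n := Nat.cast_nonneg n
  set L := Real.log (N : ℝ) with hL
  -- Cauchy-Schwarz
  have hCS : (∑ k ∈ range n, μ.real {ω | c k ω ∈ X (k + 1)} *
      (κ ^ nuD (k + 1) * (2 * N / (Nat.totient (k + 1) : ℝ)))) ^ 2 ≤
      (∑ k ∈ range n, (κ ^ nuD (k + 1) * (2 * N / (Nat.totient (k + 1) : ℝ))) ^ 2 *
        ((X (k + 1)).card : ℝ)) * ∑ k ∈ range n, ∑ a, pr μ c k a ^ 2 := by
    have h1 : ∑ k ∈ range n, μ.real {ω | c k ω ∈ X (k + 1)} *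
        (κ ^ nuD (k + 1) * (2 * N / (Nat.totient (k + 1) : ℝ))) ≤
        ∑ k ∈ range n, ((κ ^ nuD (k + 1) * (2 * N / (Nat.totient (k + 1) : ℝ))) *
          Real.sqrt ((X (k + 1)).card : ℝ)) * Real.sqrt (∑ a, pr μ c k a ^ 2) := by
      refine sum_le_sum fun k _ => ?_
      have h2 : μ.real {ω | c k ω ∈ X (k + 1)} ≤
          Real.sqrt ((X (k + 1)).card : ℝ) * Real.sqrt (∑ a, pr μ c k a ^ 2) := by
        rw [← Real.sqrt_mul (Nat.cast_nonneg _)]
        exact Real.le_sqrt_of_sq_le (prob_X μ k _)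
      calc _ ≤ (Real.sqrt ((X (k + 1)).card : ℝ) * Real.sqrt (∑ a, pr μ c k a ^ 2)) *
            (κ ^ nuD (k + 1) * (2 * N / (Nat.totient (k + 1) : ℝ))) :=
            mul_le_mul_of_nonneg_right h2 (by positivity)
        _ = _ := by ring
    have h3 := sum_mul_sq_le_sq_mul_sq (range n)
      (fun k => (κ ^ nuD (k + 1) * (2 * N / (Nat.totient (k + 1) : ℝ))) *
          Real.sqrt ((X (k + 1)).card : ℝ)) (fun k => Real.sqrt (∑ a, pr μ c k a ^ 2))
    have h4 : (∑ k ∈ range n, μ.real {ω | c k ω ∈ X (k + 1)} *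
        (κ ^ nuD (k + 1) * (2 * N / (Nat.totient (k + 1) : ℝ)))) ^ 2 ≤ (∑ k ∈ range n,
        ((κ ^ nuD (k + 1) * (2 * N / (Nat.totient (k + 1) : ℝ))) *
          Real.sqrt ((X (k + 1)).card : ℝ)) * Real.sqrt (∑ a, pr μ c k a ^ 2)) ^ 2 :=
      pow_le_pow_left₀ (sum_nonneg fun k _ => mul_nonneg measureReal_nonneg (by positivity)) h1 2
    refine h4.trans (h3.trans (le_of_eq ?_))
    congr 1
    · refine sum_congr rfl fun k _ => ?_
      rw [mul_pow, Real.sq_sqrt (Nat.cast_nonneg _)]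
    · refine sum_congr rfl fun k _ => ?_
      rw [Real.sq_sqrt (sum_nonneg fun _ _ => sq_nonneg _)]
  have hA : ∑ k ∈ range n, (κ ^ nuD (k + 1) * (2 * N / (Nat.totient (k + 1) : ℝ))) ^ 2 *
      ((X (k + 1)).card : ℝ) ≤ 4 * N * L ^ B * n * L ^ c' := by
    have h1 : ∀ k ∈ range n, (κ ^ nuD (k + 1) * (2 * N / (Nat.totient (k + 1) : ℝ))) ^ 2 *
        ((X (k + 1)).card : ℝ) ≤ 4 * N * L ^ B * n *
          ((2 * κ ^ 2) ^ (k + 1).primeFactors.card / (Nat.totient (k + 1) : ℝ)) := by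
      intro k hk
      rw [mem_range] at hk
      have hφ : (0 : ℝ) < (Nat.totient (k + 1) : ℝ) := by
        exact_mod_cast Nat.totient_pos.2 (by omega)
      have h2 := hX (k + 1) (by omega)
      have h3 := tot_two_pow (k + 1) (by omega)
      have h4 : ((k + 1 : ℕ) : ℝ) ≤ n := by exact_mod_cast hk
      obtain ⟨φ, hφe⟩ : ∃ φ : ℝ, φ = (Nat.totient (k + 1) : ℝ) := ⟨_, rfl⟩
      obtain ⟨d, hde⟩ : ∃ d : ℝ, d = ((k + 1 : ℕ) : ℝ) := ⟨_, rfl⟩
      rw [← hφe] at hφ h3 ⊢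
      rw [← hde] at h2 h3 h4
      have hd0 : 0 ≤ d := by rw [hde]; positivity
      calc (κ ^ nuD (k + 1) * (2 * N / φ)) ^ 2 * ((X (k + 1)).card : ℝ)
          ≤ (κ ^ nuD (k + 1) * (2 * N / φ)) ^ 2 * (d ^ 2 * L ^ B / N) :=
            mul_le_mul_of_nonneg_left h2 (by positivity)
        _ = 4 * N * L ^ B * ((κ ^ nuD (k + 1)) ^ 2 * (d * d) / φ ^ 2) := by
            field_simp
            ring
        _ ≤ 4 * N * L ^ B * ((κ ^ nuD (k + 1)) ^ 2 * (n * (2 ^ nuD (k + 1) * φ)) / φ ^ 2) := by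
            gcongr
        _ = 4 * N * L ^ B * n * ((2 * κ ^ 2) ^ (k + 1).primeFactors.card / φ) := by
            rw [mul_pow, ← pow_mul, ← pow_mul, mul_comm (nuD (k + 1)) 2]
            unfold nuD
            field_simp
    refine (sum_le_sum h1).trans ?_
    rw [← mul_sum]
    refine mul_le_mul_of_nonneg_left ?_ (by positivity)
    refine le_trans ?_ (hc' N hN)
    rw [← sum_shift (fun d => (2 * κ ^ 2) ^ d.primeFactors.card / (Nat.totient d : ℝ)) N]
    exact sum_le_sum_of_subset_of_nonneg (range_subset_range.2 hnN) fun k _ _ => by positivity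
  have hB : ∑ k ∈ range n, ∑ a, pr μ c k a ^ 2 ≤ K * (n : ℝ) ^ β * (3 ^ D * L ^ D) := by
    refine (hcoll n).trans ?_
    rw [← mul_pow]
    have h1 : Real.log ((n : ℝ) + 2) ≤ 3 * L := by
      have h2 : (n : ℝ) + 2 ≤ (N : ℝ) ^ 3 := by
        have h3 : (n : ℝ) ≤ N := by exact_mod_cast hnN
        have h4 : (8 : ℝ) ≤ N := by exact_mod_cast hN
        have h5 : (N : ℝ) * 1 ≤ N * N ^ 2 := by
          apply mul_le_mul_of_nonneg_left _ hN0.le
          nlinarith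
        nlinarith
      calc Real.log ((n : ℝ) + 2) ≤ Real.log ((N : ℝ) ^ 3) :=
            Real.log_le_log (by positivity) h2
        _ = 3 * L := by rw [Real.log_pow]; push_cast; rfl
    have h2 : 0 ≤ Real.log ((n : ℝ) + 2) := Real.log_nonneg (by linarith)
    gcongr
  have hnn : (n : ℝ) * (n : ℝ) ^ β = (n : ℝ) ^ (1 + β) := by
    rcases Nat.eq_zero_or_pos n with h | h
    · rw [h, Nat.cast_zero, zero_mul, Real.zero_rpow (by linarith)]
    · rw [Real.rpow_add (by exact_mod_cast h), Real.rpow_one]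
  have hfin : (∑ k ∈ range n, μ.real {ω | c k ω ∈ X (k + 1)} *
      (κ ^ nuD (k + 1) * (2 * N / (Nat.totient (k + 1) : ℝ)))) ^ 2 ≤
      ((2 * Real.sqrt (K * 3 ^ D)) * (N / L ^ U)) ^ 2 := by
    refine hCS.trans ?_
    calc _ ≤ (4 * N * L ^ B * n * L ^ c') * (K * (n : ℝ) ^ β * (3 ^ D * L ^ D)) := by
          apply mul_le_mul hA hB _ (by positivity)
          exact sum_nonneg fun _ _ => sum_nonneg fun _ _ => sq_nonneg _
      _ = 4 * (K * 3 ^ D) * N * (((n : ℝ) * (n : ℝ) ^ β) * L ^ (B + c' + D)) := by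
          rw [pow_add, pow_add]; ring
      _ ≤ 4 * (K * 3 ^ D) * N * (N / L ^ (2 * U)) := by
          apply mul_le_mul_of_nonneg_left _ (by positivity)
          rw [le_div_iff₀ (by positivity), mul_assoc, ← pow_add, hnn]
          exact hn
      _ = _ := by
          rw [mul_pow, mul_pow, Real.sq_sqrt (by positivity), div_pow, ← pow_mul, mul_comm U 2]
          ring
  exact (pow_le_pow_iff_left₀ (sum_nonneg fun k _ => mul_nonneg measureReal_nonneg (by positivity))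
    (by positivity) two_ne_zero).1 hfin

include hc in
/-- **almost sure bounds** -/
theorem as (κ : ℝ) (hκ : 1 ≤ κ) (β K : ℝ) (D : ℕ) (hβ : 0 ≤ β) (hK : 0 ≤ K)
    (hcoll : ∀ n : ℕ, ∑ k ∈ range n, ∑ a, pr μ c k a ^ 2 ≤
      K * (n : ℝ) ^ β * Real.log (n + 2) ^ D) (U : ℕ) :
    ∃ B : ℕ, ∀ᵐ ω ∂μ, ∃ x₀ : ℕ, ∀ x : ℕ, x₀ ≤ x → ∀ n : ℕ,
      (n : ℝ) ^ (1 + β) * Real.log x ^ B ≤ x → SW c κ x n ω ≤ x / Real.log x ^ U := by
  have hκ0 : 0 ≤ κ := by linarith
  obtain ⟨B₁, C₁, H⟩ := Pool.Agent.Results.MP_188a10_nt.WeightedExceptional.result κ hκ (U + 1)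
  obtain ⟨B', hB'⟩ := mean_RX μ hc κ hκ β K D hβ hK hcoll B₁ (U + 3)
  choose! X hX using fun N (hN : 3 ≤ N) => (H N hN).1
  set bad : ℕ → Set Ω := fun i => {ω | (2 ^ i : ℝ) / Real.log (2 ^ i) ^ (U + 1) ≤
    RX c κ (X (2 ^ i)) (2 ^ i) (nn β B' (2 ^ i)) ω} with hbad
  have hprob : ∀ i : ℕ, 3 ≤ i → μ.real (bad i) ≤ (2 * Real.sqrt (K * 3 ^ D)) * 4 * (1 / (i : ℝ) ^ 2) := by
    intro i hi
    have h8 : 8 ≤ 2 ^ i := by
      calc 8 = 2 ^ 3 := rfl
        _ ≤ 2 ^ i := Nat.pow_le_pow_right (by norm_num) hi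
    have hnN : nn β B' (2 ^ i) ≤ 2 ^ i := by
      unfold nn; exact Nat.findGreatest_le _
    have h1 := hB' (2 ^ i) h8 (nn β B' (2 ^ i)) hnN (nn_spec β hβ B' (2 ^ i)) (X (2 ^ i))
      (hX (2 ^ i) (by omega)).1
    push_cast at h1
    have hl1 : 1 ≤ Real.log ((2 : ℝ) ^ i) := by
      have := log_ge_one (x := 2 ^ i) (by omega)
      push_cast at this
      exact this
    have hl0 : 0 < Real.log ((2 : ℝ) ^ i) := by linarith
    have hi0 : (0 : ℝ) < i := by exact_mod_cast (by omega : 0 < i)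
    have hm := mul_meas_ge_le_integral_of_nonneg (μ := μ)
      (Eventually.of_forall fun ω => RX_nonneg (c := c) hκ0 (X (2 ^ i)) (2 ^ i)
        (nn β B' (2 ^ i)) ω) (integrable_RX μ hc κ (X (2 ^ i)) (2 ^ i) (nn β B' (2 ^ i)))
      ((2 ^ i : ℝ) / Real.log (2 ^ i) ^ (U + 1))
    have hm' : (2 ^ i : ℝ) / Real.log (2 ^ i) ^ (U + 1) * μ.real (bad i) ≤
        ∫ ω, RX c κ (X (2 ^ i)) (2 ^ i) (nn β B' (2 ^ i)) ω ∂μ := hm
    have h2 := hm'.trans h1
    rw [div_mul_eq_mul_div, div_le_iff₀ (by positivity)] at h2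
    have e : (2 * Real.sqrt (K * 3 ^ D)) * ((2 : ℝ) ^ i / Real.log (2 ^ i) ^ (U + 3)) *
        Real.log (2 ^ i) ^ (U + 1) = 2 ^ i * ((2 * Real.sqrt (K * 3 ^ D)) *
          (1 / Real.log (2 ^ i) ^ 2)) := by
      rw [show U + 3 = (U + 1) + 2 from rfl, pow_add (Real.log ((2 : ℝ) ^ i)) (U + 1) 2]
      field_simp
    rw [e] at h2
    have h3 := le_of_mul_le_mul_left h2 (by positivity : (0 : ℝ) < 2 ^ i)
    refine h3.trans ?_
    rw [mul_assoc _ 4]
    apply mul_le_mul_of_nonneg_left _ (by positivity)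
    rw [mul_one_div, div_le_div_iff₀ (by positivity) (by positivity), one_mul, Real.log_pow]
    have h4 := Real.log_two_gt_d9
    have h5 : (i : ℝ) / 2 ≤ i * Real.log 2 := by nlinarith
    nlinarith [pow_le_pow_left₀ (by positivity : (0 : ℝ) ≤ i / 2) h5 2]
  refine ⟨B' + 1, ?_⟩
  have hsum : ∑' i, μ (bad (i + 3)) ≠ ⊤ := by
    have h1 : Summable fun i : ℕ => (2 * Real.sqrt (K * 3 ^ D)) * 4 * (1 / ((i + 3 : ℕ) : ℝ) ^ 2) := by
      apply Summable.mul_left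
      exact (summable_nat_add_iff 3).2 (Real.summable_one_div_nat_pow.2 (by norm_num))
    refine ne_top_of_le_ne_top h1.tsum_ofReal_ne_top (ENNReal.tsum_le_tsum fun i => ?_)
    rw [← ofReal_measureReal]
    exact ENNReal.ofReal_le_ofReal (hprob (i + 3) (by omega))
  filter_upwards [ae_eventually_notMem hsum] with ω hω
  obtain ⟨i0, hi0⟩ := eventually_atTop.1 hω
  obtain ⟨T, hT⟩ := exists_nat_ge ((2 : ℝ) * (|C₁| + 1) + 2 ^ B')
  refine ⟨2 ^ (i0 + 2 * T + 4), fun x hx n hn => ?_⟩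
  have hxpos : 0 < x := lt_of_lt_of_le (by positivity) hx
  obtain ⟨j, hj⟩ : ∃ j, j = Nat.log 2 x := ⟨_, rfl⟩
  have hIj : i0 + 2 * T + 4 ≤ j := by rw [hj]; exact Nat.le_log_of_pow_le (by norm_num) hx
  have hlow : 2 ^ j ≤ x := by rw [hj]; exact Nat.pow_log_le_self 2 hxpos.ne'
  have hupp : x < 2 ^ (j + 1) := by rw [hj]; exact Nat.lt_pow_succ_log_self (by norm_num) x
  obtain ⟨i, hi⟩ : ∃ i, i = j + 1 := ⟨_, rfl⟩
  obtain ⟨N, hN⟩ : ∃ N, N = 2 ^ i := ⟨_, rfl⟩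
  have hNcast : (N : ℝ) = 2 ^ i := by rw [hN]; push_cast; rfl
  have hxN : x ≤ N := by rw [hN, hi]; exact hupp.le
  have hNx : N ≤ 2 * x := by
    rw [hN, hi, pow_succ]; omega
  have hω' : ω ∉ bad i := by
    have h := hi0 (i - 3) (by omega)
    rwa [Nat.sub_add_cancel (by omega)] at h
  have hx0 : (0 : ℝ) < x := by exact_mod_cast hxpos
  have hx8 : 8 ≤ x := by
    calc 8 = 2 ^ 3 := rfl
      _ ≤ 2 ^ j := Nat.pow_le_pow_right (by norm_num) (by omega)
      _ ≤ x := hlow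
  have hl1 := log_ge_one (x := x) (by omega)
  have hl0 : 0 < Real.log x := by linarith
  have hj0 : (0 : ℝ) < j := by exact_mod_cast (by omega : 0 < j)
  have hLT : (2 : ℝ) * (|C₁| + 1) + 2 ^ B' ≤ Real.log x := by
    have h1 : Real.log ((2 : ℝ) ^ j) ≤ Real.log x :=
      Real.log_le_log (by positivity) (by exact_mod_cast hlow)
    rw [Real.log_pow] at h1
    have h2 := Real.log_two_gt_d9
    have h3 : (2 : ℝ) * T ≤ j := by exact_mod_cast (by omega : 2 * T ≤ j)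
    nlinarith
  have hxN' : (x : ℝ) ≤ N := by exact_mod_cast hxN
  have hN2x : (N : ℝ) ≤ 2 * x := by exact_mod_cast hNx
  have hN0 : (0 : ℝ) < N := by linarith
  have hlN1 : Real.log x ≤ Real.log N := Real.log_le_log hx0 hxN'
  have hlN2 : Real.log N ≤ 2 * Real.log x := by
    have h2 := Real.log_two_lt_d9
    calc Real.log N ≤ Real.log (2 * x) := Real.log_le_log hN0 hN2x
      _ = Real.log 2 + Real.log x := Real.log_mul (by norm_num) hx0.ne'
      _ ≤ _ := by linarith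
  have hn0 : (0 : ℝ) ≤ n := Nat.cast_nonneg n
  have hnn : (n : ℝ) ≤ (n : ℝ) ^ (1 + β) := by
    rcases Nat.eq_zero_or_pos n with h | h
    · rw [h, Nat.cast_zero]; positivity
    · have h1 : (1:ℝ) ≤ n := by exact_mod_cast h
      calc (n:ℝ) = (n:ℝ) ^ (1:ℝ) := (Real.rpow_one _).symm
        _ ≤ _ := Real.rpow_le_rpow_of_exponent_le h1 (by linarith)
  have hB'1 : 1 ≤ Real.log x ^ (B' + 1) := one_le_pow₀ hl1
  have hnx : (n : ℝ) ≤ x := by
    have h1 : (n : ℝ) * Real.log x ^ (B' + 1) ≤ x :=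
      (mul_le_mul_of_nonneg_right hnn (by positivity)).trans hn
    nlinarith
  have hnN : n ≤ nn β B' N := by
    apply le_nn
    · exact_mod_cast hnx.trans hxN'
    · calc (n : ℝ) ^ (1 + β) * Real.log N ^ B' ≤ (n : ℝ) ^ (1 + β) * (2 * Real.log x) ^ B' := by
            apply mul_le_mul_of_nonneg_left _ (by positivity)
            exact pow_le_pow_left₀ (by linarith) hlN2 B'
        _ = (n : ℝ) ^ (1 + β) * (Real.log x ^ B' * 2 ^ B') := by rw [mul_pow]; ring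
        _ ≤ (n : ℝ) ^ (1 + β) * (Real.log x ^ B' * Real.log x) := by
            apply mul_le_mul_of_nonneg_left _ (by positivity)
            apply mul_le_mul_of_nonneg_left _ (by positivity)
            have : 0 ≤ |C₁| := abs_nonneg _
            linarith
        _ = (n : ℝ) ^ (1 + β) * Real.log x ^ (B' + 1) := by rw [pow_succ]
        _ ≤ x := hn
        _ ≤ N := hxN'
  have hNle : nn β B' N ≤ N := by unfold nn; exact Nat.findGreatest_le _
  -- the sum at `N`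
  have h1 : SW c κ x n ω ≤ SW c κ N (nn β B' N) ω := by
    unfold SW
    calc _ ≤ ∑ k ∈ range n, κ ^ nuD (k + 1) * EMax N (k + 1) (c k ω) :=
          sum_le_sum fun k _ => mul_le_mul_of_nonneg_left (EMax_mono hxN k _) (by positivity)
      _ ≤ _ := sum_le_sum_of_subset_of_nonneg (range_subset_range.2 hnN) fun k _ _ =>
          mul_nonneg (by positivity) (EMax_nonneg _ _ _)
  have h2 := SW_le (c := c) hκ0 (X N) N (nn β B' N) (by omega) hNle ω
  have h3 : RX c κ (X N) N (nn β B' N) ω ≤ N / Real.log N ^ (U + 1) := by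
    have h4 : ω ∉ bad i := hω'
    simp only [hbad, Set.mem_ofPred_eq, not_le] at h4
    rw [← hNcast, ← hN] at h4
    exact h4.le
  have h4 := (hX N (by omega)).2
  have h5 : SW c κ x n ω ≤ (|C₁| + 1) * (N / Real.log N ^ (U + 1)) := by
    have h6 : 0 ≤ (N : ℝ) / Real.log N ^ (U + 1) := by
      have : 0 < Real.log N := by linarith
      positivity
    have h7 : C₁ * ((N : ℝ) / Real.log N ^ (U + 1)) ≤ |C₁| * (N / Real.log N ^ (U + 1)) :=
      mul_le_mul_of_nonneg_right (le_abs_self _) h6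
    linarith
  refine h5.trans ?_
  have h6 : (N : ℝ) / Real.log N ^ (U + 1) ≤ 2 * x / Real.log x ^ (U + 1) := by
    apply div_le_div₀ (by positivity) hN2x (by positivity)
    exact pow_le_pow_left₀ hl0.le hlN1 _
  calc (|C₁| + 1) * ((N : ℝ) / Real.log N ^ (U + 1)) ≤
        (|C₁| + 1) * (2 * x / Real.log x ^ (U + 1)) := by gcongr
    _ = (2 * (|C₁| + 1)) * (x / Real.log x ^ (U + 1)) := by ring
    _ ≤ Real.log x * (x / Real.log x ^ (U + 1)) := by
        apply mul_le_mul_of_nonneg_right _ (by positivity)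
        have : (0 : ℝ) < 2 ^ B' := by positivity
        linarith
    _ = x / Real.log x ^ U := by
        rw [pow_succ]
        field_simp

end

end Pool.Agent.Q93.WL
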